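import Mathlib
import Pool.Agent.Q29.EqSimul
import Pool.Agent.TH900.YM.Meas

/-!
# Uniform distribution of the multiples of one of the numbers `ζ(9), ζ(11), …, ζ(21)`, at every scale

One of the seven numbers `ζ(9), ζ(11), …, ζ(21)` is irrational (starting file `OddZeta9To21`). If a number `x` is
rational, its multiples by the integers up to `M`, by their powers or by the primes up to `M` are not uniformly distributed
modulo one at any large scale `M`, and for an irrational number without a bound for the quality of its rational approximations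
this can happen at infinitely many scales. We show that at every large scale at least one of the seven numbers is
free of this defect, with a power saving: for all `K` and `A ≥ 1` there are `κ > 0` and `N₀` such that for every `N ≥ N₀` there is
an odd number `j` from `9` to `21` such that for all `M` from `N` to `N ^ A` the multiples of `ζ(j)` by the integers up to
`M`, by their `k`-th powers for `k ≤ K` (even with a real polynomial of degree less than `k` added), and by the primes up to `M` in
each residue class modulo `d ≤ M ^ κ` are uniformly distributed modulo one with an error `M ^ (1 - κ)`.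

The proof uses the measure for the simultaneous rational approximations of the seven numbers (`Pool/Agent/TH900/`), an
inverse theorem for the sums of Weyl and a form of the estimate of Vinogradov for the sums over primes with a power saving
from the starting files (`H373R2/NB`, `W110/HV`).
-/

set_option autoImplicit false

namespace Pool.Agent.Results.MP_db0fbf_nt.MultiplesAlongPrimes

open Finset Polynomial

/-- The multiples of `x` are uniformly distributed at the scale `M`, with a power saving, along all polynomials of degree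
at most `K` and along the primes of all residue classes:

* for every nonzero integer `b` with `|b| ≤ M ^ κ`, every `1 ≤ k ≤ K` and every real polynomial `R` of degree less than
  `k`, the number of `0 ≤ n < M` with the fractional part of `b x n ^ k + R(n)` in `[u, v)` is `(v - u) M` up to
  `M ^ (1 - κ)`, for all `0 ≤ u ≤ v ≤ 1`;
* for every such `b`, every `1 ≤ d ≤ M ^ κ`, every `r` and every real `β`, the number of primes `p ≤ M` with
  `p ≡ r (mod d)` and the fractional part of `b x p + β` in `[u, v)` is `(v - u)` times the number of all the primes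
  `p ≤ M` with `p ≡ r (mod d)`, up to `M ^ (1 - κ)`. -/
def Good (κ : ℝ) (K M : ℕ) (x : ℝ) : Prop :=
  (∀ b : ℤ, b ≠ 0 → |(b : ℝ)| ≤ (M : ℝ) ^ κ → ∀ k : ℕ, 1 ≤ k → k ≤ K → ∀ R : ℝ[X], R.degree < k →
    ∀ u v : ℝ, 0 ≤ u → u ≤ v → v ≤ 1 →
      |(((range M).filter fun n : ℕ => u ≤ Int.fract (b * x * (n : ℝ) ^ k + R.eval (n : ℝ)) ∧
          Int.fract (b * x * (n : ℝ) ^ k + R.eval (n : ℝ)) < v).card : ℝ) - (v - u) * M| ≤
        (M : ℝ) ^ (1 - κ)) ∧
  (∀ b : ℤ, b ≠ 0 → |(b : ℝ)| ≤ (M : ℝ) ^ κ → ∀ d r : ℕ, 1 ≤ d → (d : ℝ) ≤ (M : ℝ) ^ κ → ∀ β : ℝ,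
    ∀ u v : ℝ, 0 ≤ u → u ≤ v → v ≤ 1 →
      |(((range (M + 1)).filter fun p : ℕ => (p.Prime ∧ p ≡ r [MOD d]) ∧
          (u ≤ Int.fract (b * x * p + β) ∧ Int.fract (b * x * p + β) < v)).card : ℝ) -
        (v - u) * ((range (M + 1)).filter fun p : ℕ => p.Prime ∧ p ≡ r [MOD d]).card| ≤
        (M : ℝ) ^ (1 - κ))

theorem good_iff (κ : ℝ) (K M : ℕ) (x : ℝ) : Good κ K M x ↔ Pool.Agent.Q29.Eqd.Good κ K M x := Iff.rfl

/-- At every large scale the multiples of one of the numbers `ζ(j)`, `9 ≤ j ≤ 21` odd, are uniformly distributed. -/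
theorem result (K : ℕ) (A : ℝ) (hA : 1 ≤ A) : ∃ κ : ℝ, 0 < κ ∧ ∃ N₀ : ℕ, ∀ N : ℕ, N₀ ≤ N →
    ∃ j : ℕ, Odd j ∧ 9 ≤ j ∧ j ≤ 21 ∧
      ∀ M : ℕ, N ≤ M → (M : ℝ) ≤ (N : ℝ) ^ A → Good κ K M (∑' n : ℕ, 1 / ((n : ℝ) + 1) ^ j) := by
  obtain ⟨c, hc, h⟩ := Pool.Agent.TH900.YM.measure
  obtain ⟨κ, hκ, N₀, hN₀⟩ := Pool.Agent.Q29.Eqd.simul_good _ 1038 (fun j => ∑' n : ℕ, 1 / ((n : ℝ) + 1) ^ j) c hc
    h K A hA
  refine ⟨κ, hκ, N₀, fun N hN => ?_⟩
  obtain ⟨j, hj, h1⟩ := hN₀ N hN
  refine ⟨j, ?_, ?_, ?_, fun M hNM hMA => (good_iff _ _ _ _).2 (h1 M hNM hMA)⟩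
  · fin_cases hj <;> decide
  · fin_cases hj <;> decide
  · fin_cases hj <;> decide

end Pool.Agent.Results.MP_db0fbf_nt.MultiplesAlongPrimes
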