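import Mathlib
import Pool.Agent.Q189.RK.Point
import Pool.Agent.TH900.YM.Meas

/-!
# The rank of the near relations between `1`, `ζ(9), ζ(11), …, ζ(21)` and arbitrary numbers

For all real numbers `t_1, …, t_r` (for instance the other odd zeta values, monomials in `π` and the odd zeta
values, or monomials in `ζ(9), …, ζ(21)`) the integer vectors of norm at most `X` on which the linear form
`b_0 + b_1 ζ(9) + … + b_7 ζ(21) + e_1 t_1 + … + e_r t_r` is smaller than `c X ^ (-(1038 (r + 7) + 1))` span a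
space of dimension at most `r + 6`, at every scale `X`, with `c` independent of `t_1, …, t_r`.

The proof is an elimination (`Pool/Agent/Q189/RK/Point.lean`): the maximal minors of `r + 7` independent near
relations would give rational approximations to the seven numbers `ζ(9), …, ζ(21)` with a common denominator, and
these are excluded by the simultaneous measure of the starting files
(`Pool/Agent/Results/MP_db0fbf_nt/MeasureZeta9To21.lean`).
-/

set_option autoImplicit false

namespace Pool.Agent.Results.MP_db0fbf_nt.RankWithZeta9To21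

/-- `ζ(i) = ∑ 1/(n+1)^i` -/
noncomputable def zeta (i : ℕ) : ℝ := ∑' n : ℕ, 1 / ((n : ℝ) + 1) ^ i

/-- the value of the form `b_0 + b_1 ζ(9) + … + b_7 ζ(21) + e_1 t_1 + … + e_r t_r` at the integer vector
`(b, e)` -/
noncomputable def form {r : ℕ} (t : Fin r → ℝ) (v : Fin 8 ⊕ Fin r → ℤ) : ℝ :=
  (v (Sum.inl 0) : ℝ) + ∑ j : Fin 7, (v (Sum.inl j.succ) : ℝ) * zeta (2 * j + 9) +
    ∑ j : Fin r, (v (Sum.inr j) : ℝ) * t j

/-- the numbers `1, ζ(9), …, ζ(21), t_1, …, t_r` -/
noncomputable def nums {r : ℕ} (t : Fin r → ℝ) : Fin 8 ⊕ Fin r → ℝ :=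
  Sum.elim (Fin.cons 1 fun j : Fin 7 => zeta (2 * j + 9)) t

theorem form_eq {r : ℕ} (t : Fin r → ℝ) (v : Fin 8 ⊕ Fin r → ℤ) :
    ∑ i, (v i : ℝ) * nums t i = form t v := by
  unfold form nums
  rw [Fintype.sum_sum_type, Fin.sum_univ_succ]
  simp only [Sum.elim_inl, Sum.elim_inr, Fin.cons_zero, Fin.cons_succ, mul_one]

/-- **The rank of the near relations between `1, ζ(9), …, ζ(21)` and arbitrary numbers.** -/
theorem result (r : ℕ) : ∃ c : ℝ, 0 < c ∧ ∀ (t : Fin r → ℝ) (X : ℝ), 1 ≤ X →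
    (∀ v : Fin (r + 7) → (Fin 8 ⊕ Fin r → ℤ), LinearIndependent ℤ v → (∀ k i, |(v k i : ℝ)| ≤ X) →
      ∃ k, c / X ^ (1038 * (r + 7) + 1) ≤ |form t (v k)|) ∧
    Module.finrank ℚ (Submodule.span ℚ ((fun (v : Fin 8 ⊕ Fin r → ℤ) => (fun i => (v i : ℚ))) ''
      {v | (∀ i, |(v i : ℝ)| ≤ X) ∧ |form t v| < c / X ^ (1038 * (r + 7) + 1)})) ≤ r + 6 := by
  obtain ⟨c, hc, h⟩ := Pool.Agent.TH900.YM.measure
  have e : (Fin 8 ⊕ Fin r) ≃ Fin (r + 7 + 1) := by
    refine (finSumFinEquiv (m := 8) (n := r)).trans (finCongr ?_)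
    omega
  obtain ⟨c', hc', h'⟩ := Pool.Agent.Q189.RK.rank_point e (Sum.inl 0)
    (Finset.univ.image fun j : Fin 7 => (Sum.inl j.succ : Fin 8 ⊕ Fin r)) (nums (0 : Fin r → ℝ)) 1038
    (by norm_num) c hc (by
      intro p q hq
      obtain ⟨i, hi, h1⟩ := h (fun i => p (Sum.inl (Fin.ofNat 8 ((i - 9) / 2 + 1)))) q hq
      have key : ∀ j : Fin 7, i = 2 * (j : ℕ) + 9 →
          ∃ x ∈ Finset.univ.image fun j : Fin 7 => (Sum.inl j.succ : Fin 8 ⊕ Fin r),
          c / (q : ℝ) ^ 1038 ≤ |nums (0 : Fin r → ℝ) x - (p x : ℝ) / q| := by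
        intro j hj
        refine ⟨Sum.inl j.succ, Finset.mem_image_of_mem _ (Finset.mem_univ j), ?_⟩
        have h2 : (Fin.ofNat 8 ((i - 9) / 2 + 1)) = j.succ := by
          rw [hj]
          apply Fin.ext
          rw [Fin.val_ofNat, Fin.val_succ]
          have := j.2
          omega
        rw [h2] at h1
        have h3 : nums (0 : Fin r → ℝ) (Sum.inl j.succ) = ∑' n : ℕ, 1 / ((n : ℝ) + 1) ^ i := by
          unfold nums zeta
          rw [Sum.elim_inl, Fin.cons_succ, hj]
        rw [h3]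
        exact h1
      simp only [Finset.mem_insert, Finset.mem_singleton] at hi
      rcases hi with rfl | rfl | rfl | rfl | rfl | rfl | rfl
      · exact key 0 rfl
      · exact key 1 rfl
      · exact key 2 rfl
      · exact key 3 rfl
      · exact key 4 rfl
      · exact key 5 rfl
      · exact key 6 rfl)
  refine ⟨c', hc', fun t X hX => ?_⟩
  have part1 : ∀ v : Fin (r + 7) → (Fin 8 ⊕ Fin r → ℤ), LinearIndependent ℤ v →
      (∀ k i, |(v k i : ℝ)| ≤ X) → ∃ k, c' / X ^ (1038 * (r + 7) + 1) ≤ |form t (v k)| := by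
    intro v hv hvX
    obtain ⟨k, hk⟩ := h' (nums t) (by unfold nums; rw [Sum.elim_inl, Fin.cons_zero]) (by
      intro i hi
      rw [Finset.mem_image] at hi
      obtain ⟨j, -, rfl⟩ := hi
      unfold nums
      rw [Sum.elim_inl, Sum.elim_inl]) X hX v hv hvX
    refine ⟨k, ?_⟩
    rw [form_eq] at hk
    rw [mul_comm 1038]
    exact hk
  refine ⟨part1, ?_⟩
  refine Pool.Agent.Q189.RK.finrank_le (m := r + 6) _ ?_
  intro v hv
  by_contra hcon
  push Not at hcon
  obtain ⟨k, hk⟩ := part1 v hv fun k => (hcon k).1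
  exact absurd hk (not_le.2 (hcon k).2)

end Pool.Agent.Results.MP_db0fbf_nt.RankWithZeta9To21
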